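import Pool.Agent.H4.TQ.MID
import Pool.Agent.H98.TE.PP

/-! # [H4 TQ PP] The points of polynomial size (copy of `Pool/Agent/H4/TP/PP.lean`) -/

namespace Pool.Agent.H4.TQ

open Finset Polynomial Pool.Agent.H37.TE Pool.Agent.H98.TE Pool.Agent.H4.TP

variable {n m : ℕ} {F : ℤ[X][X][X]}

/-- POINTS OF POLYNOMIAL SIZE: for all but `C X^(157/160)` of the `a` in `[X, 2X]` they are the
values of polynomial solutions -/
theorem poly_points (κ : ℕ) (hn : 3 ≤ n) (h : HypG n m F) :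
    ∃ C D : ℕ, ∀ X : ℕ, 1 ≤ X → ∀ S : Finset ℤ, (∀ a ∈ S, (X : ℤ) ≤ a ∧ a ≤ 2 * X ∧ ∃ x y : ℤ,
      |x| ≤ ((X ^ κ : ℕ) : ℤ) ∧ |y| ≤ ((X ^ κ : ℕ) : ℤ) ∧ ev3 a x y F = 0 ∧ ¬ SolD D F a x y) →
      (S.card : ℝ) ≤ C * (X : ℝ) ^ (157 / 160 : ℝ) := by
  classical
  obtain ⟨C1, h1⟩ := small_all (by omega) h
  obtain ⟨c, A0, D, h2⟩ := middle_all κ 41 hn h
  obtain ⟨X0, hX0⟩ : ∃ X0 : ℕ, X0 = A0 + 4 ^ 20 := ⟨_, rfl⟩
  refine ⟨6 * c + 3 * C1 + (X0 + 1), D, fun X hX S hS => ?_⟩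
  have hX1 : (1 : ℝ) ≤ X := by exact_mod_cast hX
  have hXp : 1 ≤ (X : ℝ) ^ (157 / 160 : ℝ) := Real.one_le_rpow hX1 (by norm_num)
  by_cases hbig : X0 ≤ X
  · obtain ⟨v, U, P, T, hv4, hvX, hvv, h58, hU20, hU41, hCpl, hPv, hwin, hTX, hTv, hxT⟩ :=
      win_par (X := X) (by omega)
    have hU1 : 1 ≤ U := hCpl.1
    obtain ⟨S0, hS0⟩ : ∃ S0, S0 = S.filter (fun a : ℤ => ∃ x y : ℤ, |x| ≤ T ∧ |y| ≤ T ∧
      ev3 a x y F = 0 ∧ ¬ SolD D F a x y) := ⟨_, rfl⟩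
    obtain ⟨Sk, hSk⟩ : ∃ Sk : ℕ → Finset ℤ, ∀ k, Sk k = (Icc (0 : ℤ) U).filter
      (fun u : ℤ => ∃ x y : ℤ, (((((X + k * U : ℕ)) ^ 19 : ℕ) : ℤ) ≤ |x| ^ 20 ∨
        ((((X + k * U : ℕ)) ^ 19 : ℕ) : ℤ) ≤ |y| ^ 20) ∧
        |x| ≤ ((((X + k * U : ℕ)) ^ κ : ℕ) : ℤ) ∧ |y| ≤ ((((X + k * U : ℕ)) ^ κ : ℕ) : ℤ) ∧
        ev3 (((X + k * U : ℕ) : ℤ) + u) x y F = 0 ∧ ¬ SolD D F (((X + k * U : ℕ) : ℤ) + u) x y) :=
      ⟨_, fun _ => rfl⟩
    have hsub : S ⊆ S0 ∪ (range (X / U + 1)).biUnion (fun k => (Sk k).image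
        (fun u => ((X + k * U : ℕ) : ℤ) + u)) := by
      intro a ha
      obtain ⟨haX, ha2, x, y, hx, hy, hev, hsol⟩ := hS a ha
      obtain ⟨b, rfl⟩ : ∃ b : ℕ, a = (X : ℤ) + b := ⟨(a - X).toNat, by omega⟩
      have hbX : b ≤ X := by omega
      obtain ⟨k, hk⟩ : ∃ k, k = b / U := ⟨_, rfl⟩
      obtain ⟨r, hr⟩ : ∃ r, r = b % U := ⟨_, rfl⟩
      have hrU : r < U := by rw [hr]; exact Nat.mod_lt _ hU1
      have hbkr : b = k * U + r := by
        rw [hk, hr, mul_comm]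
        exact (Nat.div_add_mod b U).symm
      have hkX : k ≤ X / U := by
        rw [hk]
        exact Nat.div_le_div_right hbX
      have hAle : X + k * U ≤ 2 * X := by omega
      have ea : (X : ℤ) + b = ((X + k * U : ℕ) : ℤ) + r := by
        rw [hbkr]
        push_cast
        ring
      rw [mem_union]
      by_cases hmid : ((((X + k * U : ℕ)) ^ 19 : ℕ) : ℤ) ≤ |x| ^ 20 ∨
        ((((X + k * U : ℕ)) ^ 19 : ℕ) : ℤ) ≤ |y| ^ 20
      · right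
        rw [mem_biUnion]
        refine ⟨k, mem_range.2 (by omega), ?_⟩
        rw [mem_image]
        refine ⟨r, ?_, ea.symm⟩
        rw [hSk, mem_filter, mem_Icc]
        have hXA : ((X ^ κ : ℕ) : ℤ) ≤ ((((X + k * U : ℕ)) ^ κ : ℕ) : ℤ) := by
          exact_mod_cast Nat.pow_le_pow_left (by omega : X ≤ X + k * U) κ
        refine ⟨⟨by omega, by omega⟩, x, y, hmid, hx.trans hXA, hy.trans hXA, ?_, ?_⟩
        · rw [← ea]
          exact hev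
        · rw [← ea]
          exact hsol
      · left
        push Not at hmid
        rw [hS0, mem_filter]
        have hA19 : ((((X + k * U : ℕ)) ^ 19 : ℕ) : ℤ) ≤ (((2 * X) ^ 19 : ℕ) : ℤ) := by
          exact_mod_cast Nat.pow_le_pow_left hAle 19
        exact ⟨ha, x, y, hxT x (lt_of_lt_of_le hmid.1 hA19), hxT y (lt_of_lt_of_le hmid.2 hA19),
          hev, hsol⟩
    have e1 : S0.card ≤ C1 * (T + 1) := h1 X T hX hTX S0 fun a ha => by
      rw [hS0, mem_filter] at ha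
      obtain ⟨x, y, q1, q2, q3, q4⟩ := ha.2
      exact ⟨(hS a ha.1).1, x, y, q1, q2, q3, fun q5 => q4 (q5.mono (Nat.zero_le _))⟩
    have e2 : ((range (X / U + 1)).biUnion (fun k => (Sk k).image
        (fun u => ((X + k * U : ℕ) : ℤ) + u))).card ≤ (X / U + 1) * (c * P) := by
      have := card_biUnion_le_card_mul (range (X / U + 1)) (fun k => (Sk k).image
        (fun u => ((X + k * U : ℕ) : ℤ) + u)) (c * P) fun k hk => ?_
      · rwa [card_range] at this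
      · refine card_image_le.trans ?_
        rw [mem_range] at hk
        have hkU : k * U ≤ X :=
          (Nat.mul_le_mul_right U (by omega : k ≤ X / U)).trans (Nat.div_mul_le_self X U)
        refine h2 (X + k * U) U P (by omega) (by omega) (by omega) hCpl (Sk k) fun u hu => ?_
        rw [hSk, mem_filter, mem_Icc] at hu
        exact ⟨hu.1.1, hu.1.2, hu.2⟩
    have e3 : S.card ≤ C1 * (T + 1) + (X / U + 1) * (c * P) :=
      (card_le_card hsub).trans ((card_union_le _ _).trans (add_le_add e1 e2))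
    have e4 : (S.card : ℝ) ≤ C1 * ((T + 1 : ℕ) : ℝ) + ((X / U + 1 : ℕ) : ℝ) * (c * P) := by
      exact_mod_cast e3
    refine e4.trans ?_
    have hv0 : (0 : ℝ) ≤ v ^ 19 := by positivity
    have f1 : (C1 : ℝ) * ((T + 1 : ℕ) : ℝ) ≤ C1 * (3 * (v ^ 19 * v ^ (5 / 8 : ℝ))) := by
      refine mul_le_mul_of_nonneg_left (hTv.trans ?_) (Nat.cast_nonneg _)
      exact mul_le_mul_of_nonneg_left (le_mul_of_one_le_right hv0 h58) (by norm_num)
    have f2 : ((X / U + 1 : ℕ) : ℝ) * (c * P) ≤ 3 * v ^ 19 * (c * (2 * v ^ (5 / 8 : ℝ))) :=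
      mul_le_mul hwin (mul_le_mul_of_nonneg_left hPv (Nat.cast_nonneg _)) (by positivity)
        (by positivity)
    rw [hvv] at f1
    have f3 : 3 * v ^ 19 * (c * (2 * v ^ (5 / 8 : ℝ))) =
        6 * c * (v ^ 19 * v ^ (5 / 8 : ℝ)) := by ring
    rw [f3, hvv] at f2
    have f4 : (0 : ℝ) ≤ (X0 + 1 : ℝ) * (X : ℝ) ^ (157 / 160 : ℝ) := by positivity
    refine (add_le_add f1 f2).trans ?_
    have f5 : (((6 * c + 3 * C1 + (X0 + 1) : ℕ)) : ℝ) * (X : ℝ) ^ (157 / 160 : ℝ) =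
        C1 * (3 * (X : ℝ) ^ (157 / 160 : ℝ)) + 6 * c * (X : ℝ) ^ (157 / 160 : ℝ) +
        (X0 + 1 : ℝ) * (X : ℝ) ^ (157 / 160 : ℝ) := by
      push_cast
      ring
    rw [f5]
    linarith
  · have h3 : S ⊆ Icc (X : ℤ) (2 * X) := by
      intro a ha
      rw [mem_Icc]
      exact ⟨(hS a ha).1, (hS a ha).2.1⟩
    have h4 : S.card ≤ X0 + 1 := by
      refine (card_le_card h3).trans ?_
      rw [Int.card_Icc]
      omega
    have h5 : (S.card : ℝ) ≤ (X0 + 1 : ℕ) := by exact_mod_cast h4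
    refine h5.trans ?_
    push_cast
    have f1 : (0 : ℝ) ≤ 6 * c + 3 * C1 := by positivity
    have f2 : (0 : ℝ) ≤ (X0 : ℝ) + 1 := by positivity
    nlinarith

end Pool.Agent.H4.TQ
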