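import Mathlib

/-! # [H4 TQ NU2] Finitely many rational points

`z : σ → ℚ` with `M (z j)^K = h_j(z)` for all `j`, `h_j ∈ ℤ[X_σ]` of total degree `< K`. Let `w = M z`. Multiply by `M^(K-1)`: `(w j)^K = M^(K-1) h_j(w / M) = H_j(w)` with `H_j = ∑_d c_d M^(K-1-|d|) X^d ∈ ℤ[X_σ]`, total degree `< K`.
`w j` is an integer: let `p` be a prime, `‖·‖ = padicNorm p` (non-archimedean, `≤ 1` on integers). Let `j` be an index with `‖w j‖` maximal, `= r`; if `r > 1`: `‖H_j(w)‖ ≤ max over the monomials of ∏ ‖w i‖^(d i) ≤ r^(|d|) ≤ r^(K-1)`, but `‖(w j)^K‖ = r^K`: contradiction. So `‖w j‖ ≤ 1` for all `p`, so `w j ∈ ℤ` (a prime dividing the denominator has norm `> 1`). (Alternative: `ℤ[w]` is a finitely generated `ℤ`-module, so `w j` is integral over `ℤ`, and `ℤ` is integrally closed: `IsIntegrallyClosed`.)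
Size: let `|z j|` be maximal, `= R`; if `R ≥ 1`: `|M| R^K ≤ (∑ |c_d|) R^(K-1)`, so `R ≤ ∑_j ∑_d |c_{j,d}| =: B`. So `w` is a vector of integers with entries `≤ |M| (B + 1)` in absolute value: finitely many (`Set.Finite.pi`, `Set.finite_Icc`; `z = w / M` is determined by `w`). -/

namespace Pool.Agent.H4.TQ

open Finset MvPolynomial

private theorem nu2_mono {σ : Type} [Fintype σ] (φ : ℚ →* ℚ) (h0 : ∀ a, 0 ≤ φ a) {R : ℚ}
    (hR : 1 ≤ R) (z : σ → ℚ) (hz : ∀ i, φ (z i) ≤ R) (d : σ →₀ ℕ) (k : ℕ)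
    (hd : ∑ i, d i ≤ k) : φ (∏ i, z i ^ d i) ≤ R ^ k := by
  rw [map_prod]
  calc ∏ i, φ (z i ^ d i) ≤ ∏ i, R ^ d i := by
        refine Finset.prod_le_prod (fun i _ => h0 _) fun i _ => ?_
        rw [map_pow]
        exact pow_le_pow_left₀ (h0 _) (hz i) _
    _ = R ^ ∑ i, d i := Finset.prod_pow_eq_pow_sum _ _ _
    _ ≤ R ^ k := pow_le_pow_right₀ hR hd

private theorem nu2_aeval {σ : Type} [Fintype σ] (z : σ → ℚ) (p : MvPolynomial σ ℤ) :
    aeval z p = ∑ d ∈ p.support, ((p.coeff d : ℤ) : ℚ) * ∏ i, z i ^ d i := by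
  rw [aeval_def, eval₂_eq']
  rfl

private theorem nu2_deg {σ : Type} [Fintype σ] {p : MvPolynomial σ ℤ} {K : ℕ}
    (hp : p.totalDegree < K) {d : σ →₀ ℕ} (hd : d ∈ p.support) : ∑ i, d i ≤ K - 1 := by
  have h1 := le_totalDegree hd
  rw [Finsupp.sum_fintype _ _ (fun _ => rfl)] at h1
  omega

/-- all `p`-adic norms at most one: an integer -/
private theorem nu2_int (q : ℚ) (h : ∀ p : ℕ, p.Prime → padicNorm p q ≤ 1) : ∃ w : ℤ, q = w := by
  have hden : q.den = 1 := by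
    by_contra hne
    obtain ⟨p, hp, hpd⟩ := Nat.exists_prime_and_dvd hne
    have hF : Fact p.Prime := ⟨hp⟩
    have h1 := h p hp
    have hq0 : q ≠ 0 := by
      rintro rfl
      exact hne rfl
    have h2 : q * (q.den : ℚ) = q.num := Rat.mul_den_eq_num q
    have h3 : padicNorm p q * padicNorm p (q.den : ℚ) = padicNorm p (q.num : ℚ) := by
      rw [← padicNorm.mul, h2]
    have h4 : padicNorm p (q.num : ℚ) = 1 := by
      have h5 : ¬ (p : ℤ) ∣ q.num := by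
        intro h6
        have h7 : p ∣ q.num.natAbs := Int.natCast_dvd.mp h6
        have h8 := Nat.dvd_gcd h7 hpd
        rw [q.reduced] at h8
        exact hp.one_lt.ne' (Nat.dvd_one.mp h8)
      exact (padicNorm.int_eq_one_iff q.num).mpr h5
    have h5 : padicNorm p (q.den : ℚ) < 1 := by
      have := (padicNorm.int_lt_one_iff (p := p) (q.den : ℤ)).mpr (by exact_mod_cast hpd)
      exact_mod_cast this
    rw [h4] at h3
    have h6 : 0 ≤ padicNorm p (q.den : ℚ) := padicNorm.nonneg _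
    have h7 : padicNorm p q * padicNorm p (q.den : ℚ) ≤ 1 * padicNorm p (q.den : ℚ) :=
      mul_le_mul_of_nonneg_right h1 h6
    linarith
  exact ⟨q.num, ((Rat.den_eq_one_iff q).mp hden).symm⟩

private theorem nu2_padic {σ : Type} [Fintype σ] {M : ℤ} {K : ℕ} (hK : 1 ≤ K)
    {h : σ → MvPolynomial σ ℤ} (hd : ∀ j, (h j).totalDegree < K) {z : σ → ℚ}
    (hz : ∀ j, (M : ℚ) * z j ^ K = aeval z (h j)) (p : ℕ) (hp : p.Prime) (i : σ) :
    padicNorm p ((M : ℚ) * z i) ≤ 1 := by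
  have hF : Fact p.Prime := ⟨hp⟩
  have hN : Nonempty σ := ⟨i⟩
  obtain ⟨j, hj⟩ := Finite.exists_max fun i => padicNorm p (z i)
  set r := padicNorm p (z j) with hr
  have hr0 : 0 ≤ r := padicNorm.nonneg _
  have hM1 : padicNorm p (M : ℚ) ≤ 1 := padicNorm.of_int M
  have hM0 : 0 ≤ padicNorm p (M : ℚ) := padicNorm.nonneg _
  rw [padicNorm.mul]
  refine (mul_le_mul_of_nonneg_left (hj i) hM0).trans ?_
  by_contra hcon
  push Not at hcon
  have hcon' : 1 < padicNorm p (M : ℚ) * r := hcon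
  have hr1 : 1 ≤ r := by
    have h1 : padicNorm p (M : ℚ) * r ≤ 1 * r := mul_le_mul_of_nonneg_right hM1 hr0
    linarith
  have h1 : padicNorm p (M : ℚ) * r ^ K ≤ r ^ (K - 1) := by
    have h2 : padicNorm p ((M : ℚ) * z j ^ K) = padicNorm p (M : ℚ) * r ^ K := by
      rw [padicNorm.mul]
      congr 1
      have h3 : ∀ k : ℕ, padicNorm p (z j ^ k) = r ^ k := by
        intro k
        induction k with
        | zero => simp
        | succ k ih => rw [pow_succ, padicNorm.mul, ih, pow_succ]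
      exact h3 K
    rw [← h2, hz j, nu2_aeval]
    apply padicNorm.sum_le' _ (by positivity)
    intro d hd'
    rw [padicNorm.mul]
    have h3 : padicNorm p (((h j).coeff d : ℤ) : ℚ) ≤ 1 := padicNorm.of_int _
    have h4 := nu2_mono (⟨⟨padicNorm p, padicNorm.one⟩, padicNorm.mul⟩ : ℚ →* ℚ)
      (fun a => padicNorm.nonneg a) hr1 z hj d (K - 1) (nu2_deg (hd j) hd')
    have h5 : padicNorm p (∏ i, z i ^ d i) ≤ r ^ (K - 1) := h4
    calc padicNorm p (((h j).coeff d : ℤ) : ℚ) * padicNorm p (∏ i, z i ^ d i)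
        ≤ 1 * r ^ (K - 1) := mul_le_mul h3 h5 (padicNorm.nonneg _) zero_le_one
      _ = r ^ (K - 1) := one_mul _
  have h2 : r ^ K = r * r ^ (K - 1) := by
    rw [← pow_succ']
    congr 1
    omega
  rw [h2, ← mul_assoc] at h1
  have h3 : 0 < r ^ (K - 1) := by positivity
  have h4 : padicNorm p (M : ℚ) * r * r ^ (K - 1) ≤ 1 * r ^ (K - 1) := by linarith
  have h5 := le_of_mul_le_mul_right h4 h3
  linarith

private theorem nu2_arch {σ : Type} [Fintype σ] {M : ℤ} {K : ℕ} (hM : M ≠ 0) (hK : 1 ≤ K)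
    {h : σ → MvPolynomial σ ℤ} (hd : ∀ j, (h j).totalDegree < K) {z : σ → ℚ}
    (hz : ∀ j, (M : ℚ) * z j ^ K = aeval z (h j)) (i : σ) :
    |z i| ≤ ∑ j, ∑ d ∈ (h j).support, |(((h j).coeff d : ℤ) : ℚ)| + 1 := by
  have hN : Nonempty σ := ⟨i⟩
  obtain ⟨j, hj⟩ := Finite.exists_max fun i => |z i|
  set R := |z j| with hR
  refine (hj i).trans ?_
  have hb0 : ∀ j, 0 ≤ ∑ d ∈ (h j).support, |(((h j).coeff d : ℤ) : ℚ)| := fun j =>
    Finset.sum_nonneg fun d _ => abs_nonneg _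
  have hB : ∑ d ∈ (h j).support, |(((h j).coeff d : ℤ) : ℚ)| ≤
      ∑ j, ∑ d ∈ (h j).support, |(((h j).coeff d : ℤ) : ℚ)| :=
    Finset.single_le_sum (f := fun j => ∑ d ∈ (h j).support, |(((h j).coeff d : ℤ) : ℚ)|)
      (fun j _ => hb0 j) (Finset.mem_univ j)
  rcases le_or_gt R 1 with hR1 | hR1
  · have := hb0 j
    show R ≤ _
    linarith
  have h1 : |(M : ℚ)| * R ^ K ≤ (∑ d ∈ (h j).support, |(((h j).coeff d : ℤ) : ℚ)|) * R ^ (K - 1) := by
    have h2 : |(M : ℚ) * z j ^ K| = |(M : ℚ)| * R ^ K := by rw [abs_mul, abs_pow]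
    rw [← h2, hz j, nu2_aeval, Finset.sum_mul]
    refine (Finset.abs_sum_le_sum_abs _ _).trans ?_
    refine Finset.sum_le_sum fun d hd' => ?_
    rw [abs_mul]
    have h4 := nu2_mono (⟨⟨fun a : ℚ => |a|, abs_one⟩, abs_mul⟩ : ℚ →* ℚ)
      (fun a => abs_nonneg a) hR1.le z hj d (K - 1) (nu2_deg (hd j) hd')
    have h5 : |∏ i, z i ^ d i| ≤ R ^ (K - 1) := h4
    exact mul_le_mul_of_nonneg_left h5 (abs_nonneg _)
  have h2 : R ^ K = R * R ^ (K - 1) := by
    rw [← pow_succ']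
    congr 1
    omega
  rw [h2, ← mul_assoc] at h1
  have h3 : 0 < R ^ (K - 1) := by positivity
  have h4 := le_of_mul_le_mul_right h1 h3
  have hM1 : (1 : ℚ) ≤ |(M : ℚ)| := by
    have : 1 ≤ |M| := Int.one_le_abs hM
    exact_mod_cast this
  have h5 : R ≤ |(M : ℚ)| * R := le_mul_of_one_le_left (by linarith) hM1
  show R ≤ _
  linarith

theorem fin_of_eq {σ : Type} [Fintype σ] (M : ℤ) (K : ℕ) (hM : M ≠ 0) (hK : 1 ≤ K)
    (h : σ → MvPolynomial σ ℤ) (hd : ∀ j, (h j).totalDegree < K) :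
    {z : σ → ℚ | ∀ j, (M : ℚ) * z j ^ K = aeval z (h j)}.Finite := by
  set B : ℚ := ∑ j, ∑ d ∈ (h j).support, |(((h j).coeff d : ℤ) : ℚ)| + 1 with hB
  set b : ℤ := ⌈|(M : ℚ)| * B⌉ with hb
  have hfin : {w : σ → ℤ | ∀ i, w i ∈ Set.Icc (-b) b}.Finite :=
    Set.Finite.pi' fun _ => Set.finite_Icc _ _
  refine (hfin.image fun (w : σ → ℤ) (i : σ) => (w i : ℚ) / (M : ℚ)).subset ?_
  intro z hz
  have hz' : ∀ j, (M : ℚ) * z j ^ K = aeval z (h j) := hz
  have hM' : (M : ℚ) ≠ 0 := by exact_mod_cast hM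
  have h1 : ∀ i, ∃ w : ℤ, (M : ℚ) * z i = w := fun i =>
    nu2_int _ fun p hp => nu2_padic hK hd hz' p hp i
  choose w hw using h1
  refine ⟨w, ?_, ?_⟩
  · intro i
    have h2 : |(w i : ℚ)| ≤ b := by
      rw [← hw i, abs_mul]
      refine (mul_le_mul_of_nonneg_left (nu2_arch hM hK hd hz' i) (abs_nonneg _)).trans ?_
      exact Int.le_ceil _
    have h3 : |w i| ≤ b := by exact_mod_cast h2
    exact Set.mem_Icc.mpr (abs_le.mp h3)
  · funext i
    show (w i : ℚ) / (M : ℚ) = z i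
    rw [← hw i]
    field_simp

end Pool.Agent.H4.TQ
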