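import Pool.Agent.H4.TQ.NU1
import Pool.Agent.H4.TQ.NU2
import Pool.Agent.H98.TE.FAM
import Pool.Agent.H37.TE.Cor
import Pool.Agent.H37.TE.Irr

/-! # [H4 TQ NU3] Finitely many polynomial solutions of bounded degree

`σ = Fin 2 × Fin (D + 1)`, `R = MvPolynomial σ ℤ`, `x = ∑_i C (X (0, i)) * X^i`, `y = ∑_i C (X (1, i)) * X^i` in `R[X]` (the variable of `R[X]` is `t`). `P = ev3 X x y F ∈ R[X]`, `Ψ_i = P.coeff i`, `i ≤ m + n D` (the other coefficients vanish, or take a bound `L` with `P.natDegree < L`, `ι = Fin L`). `ev3_sum` (`Pool/Agent/H98/TE/FAM.lean`): `P = ∑_(b ≤ n) ∑_(a ≤ n - b) ∑_(j ≤ m) (cf3 F j a b) * (X^j x^a y^b)`; the coefficients of `x^a y^b` are forms of degree `a + b` in the variables, so `Ψ_i = φ_i + Λ_i`, `φ_i` (the terms with `a + b = n`) a form of degree `n`, `Λ_i` (the terms with `a + b < n`) of total degree `< n`.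
Evaluation at `z : σ → ℂ` (`aeval`, a ring hom `R → ℂ`, mapped to `R[X] → ℂ[X]`): `∑_i φ_i(z) t^i = ∑_(b ≤ n) (topf n F)_b(t) x_z^(n-b) y_z^b`, `x_z = ∑ z(0,i) t^i`. If all `φ_i(z) = 0`, then by `h0` `x_z = y_z = 0`, so `z = 0`. `null_int` for the `φ_i`: `M z_j^K = ∑_i g_ij(z) φ_i(z)`.
A solution `(r1, r2)`, degrees `≤ D`, gives `z : σ → ℚ` (its coefficients), `Ψ_i(z) = 0` for all `i` (`ev3_hom`: `ev3 X r1 r2 F` is the image of `P`), so `M z_j^K = - ∑_i g_ij(z) Λ_i(z) = h_j(z)`, `h_j = - ∑_i g_ij Λ_i` of total degree `≤ (K - n) + (n - 1) < K`. `fin_of_eq`: finitely many `z`; `(r1, r2)` is determined by `z` (`Set.Finite.of_injOn` / `Set.Finite.subset` of an image). If `n = 0`: `h0` fails for the constants unless..., use `hn`. -/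

namespace Pool.Agent.H4.TQ

open Finset Polynomial Pool.Agent.H37.TE Pool.Agent.H98.TE

/-- all coefficients are forms of degree `k` -/
private def Hk {σ : Type} (k : ℕ) (p : (MvPolynomial σ ℤ)[X]) : Prop :=
  ∀ i, (p.coeff i).IsHomogeneous k

private lemma Hk.mul {σ : Type} {k l : ℕ} {p q : (MvPolynomial σ ℤ)[X]} (hp : Hk k p)
    (hq : Hk l q) : Hk (k + l) (p * q) := by
  intro i
  rw [coeff_mul]
  exact MvPolynomial.IsHomogeneous.sum _ _ _ fun x _ => (hp x.1).mul (hq x.2)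

private lemma Hk.sum {σ : Type} {k : ℕ} {ι : Type} (s : Finset ι) (p : ι → (MvPolynomial σ ℤ)[X])
    (hp : ∀ i ∈ s, Hk k (p i)) : Hk k (∑ i ∈ s, p i) := by
  intro i
  rw [finsetSum_coeff]
  exact MvPolynomial.IsHomogeneous.sum _ _ _ fun x hx => hp x hx i

private lemma Hk_C {σ : Type} {k : ℕ} {c : MvPolynomial σ ℤ} (hc : c.IsHomogeneous k) :
    Hk k (C c) := by
  intro i
  rw [coeff_C]
  split_ifs
  · exact hc
  · exact MvPolynomial.isHomogeneous_zero _ _ _

private lemma Hk_one {σ : Type} : Hk 0 (1 : (MvPolynomial σ ℤ)[X]) :=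
  Hk_C (MvPolynomial.isHomogeneous_one _ _)

private lemma Hk_int {σ : Type} (c : ℤ) : Hk 0 (c : (MvPolynomial σ ℤ)[X]) := by
  have h : (c : (MvPolynomial σ ℤ)[X]) = C (MvPolynomial.C c) := by simp
  rw [h]
  exact Hk_C (MvPolynomial.isHomogeneous_C _ _)

private lemma Hk_X {σ : Type} (j : ℕ) : Hk 0 ((X : (MvPolynomial σ ℤ)[X]) ^ j) := by
  intro i
  rw [coeff_X_pow]
  split_ifs
  · exact MvPolynomial.isHomogeneous_one _ _
  · exact MvPolynomial.isHomogeneous_zero _ _ _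

private lemma Hk.pow {σ : Type} {p : (MvPolynomial σ ℤ)[X]} (hp : Hk 1 p) (a : ℕ) :
    Hk a (p ^ a) := by
  induction a with
  | zero => rw [pow_zero]; exact Hk_one
  | succ a ih => rw [pow_succ]; exact ih.mul hp

/-- the generic polynomial of degree `D` -/
private noncomputable def gp (D : ℕ) (s : Fin 2) : (MvPolynomial (Fin 2 × Fin (D + 1)) ℤ)[X] :=
  ∑ i : Fin (D + 1), C (MvPolynomial.X (s, i)) * X ^ (i : ℕ)

private lemma gp_H (D : ℕ) (s : Fin 2) : Hk 1 (gp D s) := by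
  unfold gp
  refine Hk.sum _ _ fun i _ => ?_
  have h := (Hk_C (MvPolynomial.isHomogeneous_X ℤ (s, i))).mul
    (Hk_X (σ := Fin 2 × Fin (D + 1)) (i : ℕ))
  exact h

private lemma gp_map (D : ℕ) (s : Fin 2) {K : Type} [CommRing K]
    (f : MvPolynomial (Fin 2 × Fin (D + 1)) ℤ →+* K) :
    (gp D s).map f = ∑ i : Fin (D + 1), C (f (MvPolynomial.X (s, i))) * X ^ (i : ℕ) := by
  unfold gp
  rw [Polynomial.map_sum]
  refine Finset.sum_congr rfl fun i _ => ?_
  rw [Polynomial.map_mul, map_C, Polynomial.map_pow, map_X]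

private lemma gp_coeff (D : ℕ) {K : Type} [CommRing K] (c : Fin (D + 1) → K) (j : Fin (D + 1)) :
    (∑ i : Fin (D + 1), C (c i) * X ^ (i : ℕ) : K[X]).coeff j = c j := by
  rw [finsetSum_coeff, Finset.sum_eq_single j]
  · rw [coeff_C_mul, coeff_X_pow_self, mul_one]
  · intro i _ hij
    rw [coeff_C_mul, coeff_X_pow, if_neg, mul_zero]
    intro h
    exact hij (Fin.ext h.symm)
  · intro h
    exact absurd (mem_univ _) h

/-- the terms of degree `n` -/
private noncomputable def tp {S : Type} [CommRing S] (n m : ℕ) (F : ℤ[X][X][X]) (t x y : S) : S :=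
  ∑ b ∈ range (n + 1), ∑ j ∈ range (m + 1), (cf3 F j (n - b) b : S) * (t ^ j * x ^ (n - b) * y ^ b)

/-- the terms of degree less than `n` -/
private noncomputable def lw {S : Type} [CommRing S] (n m : ℕ) (F : ℤ[X][X][X]) (t x y : S) : S :=
  ∑ b ∈ range (n + 1), ∑ a ∈ range (n - b), ∑ j ∈ range (m + 1),
    (cf3 F j a b : S) * (t ^ j * x ^ a * y ^ b)

private lemma tp_lw {n m : ℕ} {F : ℤ[X][X][X]} (H : DegF n m F) {S : Type} [CommRing S]
    (t x y : S) : ev3 t x y F = tp n m F t x y + lw n m F t x y := by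
  rw [Pool.Agent.H98.TE.ev3_sum H, tp, lw, ← Finset.sum_add_distrib]
  refine Finset.sum_congr rfl fun b hb => ?_
  rw [mem_range] at hb
  rw [show n + 1 - b = (n - b) + 1 by omega, Finset.sum_range_succ, add_comm]

private lemma tp_hom {n m : ℕ} {F : ℤ[X][X][X]} {S T : Type} [CommRing S] [CommRing T]
    (f : S →+* T) (t x y : S) : f (tp n m F t x y) = tp n m F (f t) (f x) (f y) := by
  unfold tp
  simp only [map_sum, map_mul, map_pow, map_intCast]

private lemma lw_hom {n m : ℕ} {F : ℤ[X][X][X]} {S T : Type} [CommRing S] [CommRing T]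
    (f : S →+* T) (t x y : S) : f (lw n m F t x y) = lw n m F (f t) (f x) (f y) := by
  unfold lw
  simp only [map_sum, map_mul, map_pow, map_intCast]

private lemma tp_H {σ : Type} {n m : ℕ} {F : ℤ[X][X][X]} {x y : (MvPolynomial σ ℤ)[X]}
    (hx : Hk 1 x) (hy : Hk 1 y) : Hk n (tp n m F X x y) := by
  unfold tp
  refine Hk.sum _ _ fun b hb => Hk.sum _ _ fun j _ => ?_
  rw [mem_range] at hb
  have h := (Hk_int (σ := σ) (cf3 F j (n - b) b)).mul (((Hk_X j).mul (hx.pow (n - b))).mul (hy.pow b))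
  have e : 0 + (0 + (n - b) + b) = n := by omega
  rw [e] at h
  exact h

private lemma lw_deg {σ : Type} {n m : ℕ} {F : ℤ[X][X][X]} {x y : (MvPolynomial σ ℤ)[X]}
    (hx : Hk 1 x) (hy : Hk 1 y) (i : ℕ) : ((lw n m F X x y).coeff i).totalDegree ≤ n - 1 := by
  unfold lw
  rw [finsetSum_coeff]
  refine MvPolynomial.totalDegree_finsetSum_le fun b hb => ?_
  rw [finsetSum_coeff]
  refine MvPolynomial.totalDegree_finsetSum_le fun a ha => ?_
  rw [finsetSum_coeff]
  refine MvPolynomial.totalDegree_finsetSum_le fun j _ => ?_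
  rw [mem_range] at hb ha
  have h := (Hk_int (σ := σ) (cf3 F j a b)).mul (((Hk_X j).mul (hx.pow a)).mul (hy.pow b))
  refine (h i).totalDegree_le.trans ?_
  omega

private lemma tp_topf {n m : ℕ} {F : ℤ[X][X][X]} (H : DegF n m F) (x y : ℂ[X]) :
    tp n m F X x y = ∑ b ∈ range (n + 1), ((topf n F).coeff b).map (Int.castRingHom ℂ) *
      x ^ (n - b) * y ^ b := by
  unfold tp
  refine Finset.sum_congr rfl fun b hb => ?_
  rw [mem_range] at hb
  have h1 : (topf n F).coeff b = (F.coeff b).coeff (n - b) := by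
    rw [topf, tpf_coeff, if_pos (by omega)]
  rw [h1]
  have h2 : ((F.coeff b).coeff (n - b)).map (Int.castRingHom ℂ) =
      ∑ j ∈ range (m + 1), (cf3 F j (n - b) b : ℂ[X]) * X ^ j := by
    conv_lhs => rw [as_sum_range' ((F.coeff b).coeff (n - b)) (m + 1)
      (Nat.lt_succ_of_le (H.deg _ _))]
    rw [Polynomial.map_sum]
    refine Finset.sum_congr rfl fun j _ => ?_
    rw [map_monomial, ← C_mul_X_pow_eq_monomial]
    simp [cf3]
  rw [h2, Finset.sum_mul, Finset.sum_mul]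
  refine Finset.sum_congr rfl fun j _ => ?_
  ring

theorem fin_sol {n m : ℕ} (D : ℕ) {F : ℤ[X][X][X]} (hn : 1 ≤ n) (H : DegF n m F)
    (h0 : ∀ x y : ℂ[X], ∑ b ∈ range (n + 1), ((topf n F).coeff b).map (Int.castRingHom ℂ) *
      x ^ (n - b) * y ^ b = 0 → x = 0 ∧ y = 0) :
    {r : ℚ[X] × ℚ[X] | r.1.natDegree ≤ D ∧ r.2.natDegree ≤ D ∧ ev3 X r.1 r.2 F = 0}.Finite := by
  classical
  obtain ⟨A, hA⟩ : ∃ A, A = tp n m F (X : (MvPolynomial (Fin 2 × Fin (D + 1)) ℤ)[X])
    (gp D 0) (gp D 1) := ⟨_, rfl⟩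
  obtain ⟨B, hB⟩ : ∃ B, B = lw n m F (X : (MvPolynomial (Fin 2 × Fin (D + 1)) ℤ)[X])
    (gp D 0) (gp D 1) := ⟨_, rfl⟩
  have hAB : ev3 X (gp D 0) (gp D 1) F = A + B := by rw [hA, hB, tp_lw H]
  set L := A.natDegree + 1 with hL
  obtain ⟨M, K, hM, hK1, hnK, hg⟩ := null_int n (fun i : Fin L => A.coeff i)
    (fun i => hA ▸ tp_H (gp_H D 0) (gp_H D 1) i) (by
      intro z hz
      have hAz : A.map (MvPolynomial.aeval z : MvPolynomial (Fin 2 × Fin (D + 1)) ℤ →ₐ[ℤ] ℂ).toRingHom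
          = 0 := by
        ext i
        rw [coeff_map, coeff_zero]
        by_cases hi : i < L
        · exact hz ⟨i, hi⟩
        · rw [coeff_eq_zero_of_natDegree_lt (by omega), map_zero]
      rw [hA] at hAz
      have h1 := tp_hom (n := n) (m := m) (F := F) (mapRingHom
        (MvPolynomial.aeval z : MvPolynomial (Fin 2 × Fin (D + 1)) ℤ →ₐ[ℤ] ℂ).toRingHom) X
        (gp D 0) (gp D 1)
      rw [coe_mapRingHom, hAz, map_X, tp_topf H, gp_map, gp_map] at h1
      obtain ⟨h2, h3⟩ := h0 _ _ h1.symm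
      funext ⟨s, i⟩
      have key : ∀ s : Fin 2, s = 0 ∨ s = 1 := by decide
      rcases key s with rfl | rfl
      · have h4 := congrArg (fun p : ℂ[X] => p.coeff i) h2
        rw [gp_coeff, coeff_zero] at h4
        simpa using h4
      · have h4 := congrArg (fun p : ℂ[X] => p.coeff i) h3
        rw [gp_coeff, coeff_zero] at h4
        simpa using h4)
  choose g hg1 hg2 using hg
  have hfin := fin_of_eq M K hM hK1 (fun j => - ∑ i : Fin L, g j i * B.coeff i) (by
    intro j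
    rw [MvPolynomial.totalDegree_neg]
    refine lt_of_le_of_lt (MvPolynomial.totalDegree_finsetSum_le (d := (K - n) + (n - 1))
      fun i _ => ?_) (by omega)
    refine (MvPolynomial.totalDegree_mul _ _).trans ?_
    have h1 := hg1 j i
    have h2 : (B.coeff i).totalDegree ≤ n - 1 := by
      rw [hB]
      exact lw_deg (gp_H D 0) (gp_H D 1) i
    omega)
  -- the coefficients of a solution
  set v : ℚ[X] × ℚ[X] → (Fin 2 × Fin (D + 1) → ℚ) := fun r s =>
    if s.1 = 0 then r.1.coeff s.2 else r.2.coeff s.2 with hv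
  have hsum : ∀ p : ℚ[X], p.natDegree ≤ D → ∑ i : Fin (D + 1), C (p.coeff i) * X ^ (i : ℕ) = p := by
    intro p hp
    conv_rhs => rw [as_sum_range_C_mul_X_pow' p (Nat.lt_succ_of_le hp)]
    rw [Finset.sum_range (fun i => C (p.coeff i) * X ^ i)]
  refine Set.Finite.of_finite_image (f := v) (hfin.subset ?_) ?_
  · rintro _ ⟨⟨r1, r2⟩, ⟨hr1, hr2, hr⟩, rfl⟩
    simp only at hr1 hr2 hr
    intro j
    set f : MvPolynomial (Fin 2 × Fin (D + 1)) ℤ →+* ℚ :=
      (MvPolynomial.aeval (v (r1, r2)) : MvPolynomial (Fin 2 × Fin (D + 1)) ℤ →ₐ[ℤ] ℚ).toRingHom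
      with hf
    have e1 : (gp D 0).map f = r1 := by
      rw [gp_map]
      conv_rhs => rw [← hsum r1 hr1]
      refine Finset.sum_congr rfl fun i _ => ?_
      congr 2
      simp [hf, hv]
    have e2 : (gp D 1).map f = r2 := by
      rw [gp_map]
      conv_rhs => rw [← hsum r2 hr2]
      refine Finset.sum_congr rfl fun i _ => ?_
      congr 2
      simp [hf, hv]
    have h1 := ev3_hom (mapRingHom f) X (gp D 0) (gp D 1) F
    rw [hAB, coe_mapRingHom, map_X, e1, e2, hr, Polynomial.map_add] at h1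
    have h2 : ∀ i : ℕ, f (A.coeff i) = - f (B.coeff i) := by
      intro i
      have h3 := congrArg (fun p : ℚ[X] => p.coeff i) h1
      simp only [coeff_add, coeff_map, coeff_zero] at h3
      linarith
    have h4 := congrArg f (hg2 j)
    rw [map_mul, map_pow, map_sum] at h4
    have h5 : f (MvPolynomial.C M) = (M : ℚ) := by simp [hf]
    have h6 : f (MvPolynomial.X j) = v (r1, r2) j := by simp [hf]
    rw [h5, h6] at h4
    show (M : ℚ) * v (r1, r2) j ^ K = f (- ∑ i : Fin L, g j i * B.coeff i)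
    rw [h4, map_neg, map_sum, ← Finset.sum_neg_distrib]
    refine Finset.sum_congr rfl fun i _ => ?_
    rw [map_mul, map_mul, h2]
    ring
  · rintro ⟨r1, r2⟩ ⟨hr1, hr2, -⟩ ⟨s1, s2⟩ ⟨hs1, hs2, -⟩ h
    simp only at hr1 hr2 hs1 hs2
    have k1 : r1 = s1 := by
      rw [← hsum r1 hr1, ← hsum s1 hs1]
      refine Finset.sum_congr rfl fun i _ => ?_
      have := congrFun h (0, i)
      simp only [hv, if_true] at this
      rw [this]
    have k2 : r2 = s2 := by
      rw [← hsum r2 hr2, ← hsum s2 hs2]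
      refine Finset.sum_congr rfl fun i _ => ?_
      have := congrFun h (1, i)
      simp only [hv, if_neg (show ¬ ((1 : Fin 2) = 0) by decide)] at this
      rw [this]
    rw [k1, k2]

end Pool.Agent.H4.TQ
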