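import Pool.Agent.H4.TP.Main
import Pool.Agent.H4.TQ.ALL
import Pool.Agent.H4.TQ.NU3

/-! # [H4 TQ] The main theorem, with polynomial solutions of bounded degree, finitely many if the top
part has no zero over `ℂ[t]` -/

namespace Pool.Agent.H4.TQ

open Finset Polynomial Pool.Agent.H37.TE Pool.Agent.H98.TE Pool.Agent.H4.TE Pool.Agent.H4.TP
  Pool.Agent.H4.EX

variable {n m : ℕ}

/-- the polynomial solutions of degree `≤ D` -/
def Sols (m : ℕ) (F : ℕ → MvPolynomial (Fin 2) ℤ) (D : ℕ) : Set (ℚ[X] × ℚ[X]) :=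
  {r | r.1.natDegree ≤ D ∧ r.2.natDegree ≤ D ∧
    ∑ j ∈ range (m + 1), X ^ j * MvPolynomial.aeval ![r.1, r.2] (F j) = 0}

theorem fin_part {F : ℕ → MvPolynomial (Fin 2) ℤ} (D : ℕ) (hn : 1 ≤ n)
    (hF : ∀ j ≤ m, (F j).totalDegree ≤ n)
    (h : ∀ X Y : ℂ[X], MvPolynomial.aeval ![X, Y] (topP ℂ n m F) = 0 → X = 0 ∧ Y = 0) :
    (Sols m F D).Finite := by
  have h1 := fin_sol D hn (deg_f3 hF) (fun x y hxy => h x y (by
    have e1 : topP ℂ n m F = hm n ((topf n (F3 m F)).map (mapRingHom (Int.castRingHom ℂ))) :=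
      ad_topC F
    rw [e1, ← hxy]
    unfold hm
    rw [map_sum]
    refine sum_congr rfl fun b _ => ?_
    rw [map_mul, map_mul, map_pow, map_pow, MvPolynomial.aeval_C, MvPolynomial.aeval_X,
      MvPolynomial.aeval_X, coeff_map]
    rfl))
  refine h1.subset ?_
  rintro ⟨r1, r2⟩ ⟨g1, g2, g3⟩
  refine ⟨g1, g2, ?_⟩
  rw [ev3_f3]
  simp only [aeval_z] at g3 ⊢
  exact g3

/-- the theorem after the linear change of variables -/
theorem main1 (F : ℕ → MvPolynomial (Fin 2) ℤ) (hn : 3 ≤ n) (a2 : 1 ≤ m)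
    (hF : ∀ j ≤ m, (F j).totalDegree ≤ n) (hirr : ¬ Dec (famP ℚ m F))
    (hsq : Squarefree (MvPolynomial.map (Int.castRingHom ℚ)
      (MvPolynomial.homogeneousComponent n (F m))))
    (htop : 2 ≤ m → Dec (topP ℂ n m F) → Dec (topP ℚ n m F))
    (h0 : MvPolynomial.eval ![1, 0] (MvPolynomial.homogeneousComponent n (F m)) ≠ 0)
    (h1 : MvPolynomial.eval ![0, 1] (MvPolynomial.homogeneousComponent n (F m)) ≠ 0) :
    ∃ (K δ : ℝ) (D : ℕ), 0 < δ ∧ δ < 1 ∧ ∀ N : ℕ, 1 ≤ N → ∃ E : Finset ℤ,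
      (E.card : ℝ) ≤ K * (N : ℝ) ^ (1 - δ) ∧ ∀ a : ℤ, |a| ≤ N → a ∉ E → ∀ x y : ℤ,
        ∑ j ∈ range (m + 1), a ^ j * MvPolynomial.eval ![x, y] (F j) = 0 →
          (∃ r1 r2 : ℚ[X], r1.natDegree ≤ D ∧ r2.natDegree ≤ D ∧
            ∑ j ∈ range (m + 1), X ^ j * MvPolynomial.aeval ![r1, r2] (F j) = 0 ∧
            r1.eval (a : ℚ) = x ∧ r2.eval (a : ℚ) = y) ∧
          ((∀ u v : ℚ, MvPolynomial.aeval ![u, v] (MvPolynomial.homogeneousComponent n (F m)) = 0 →
            u = 0 ∧ v = 0) → ∀ j ≤ m, MvPolynomial.eval ![x, y] (F j) = 0) := by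
  obtain ⟨a1, a3⟩ := hyp_of (by omega) a2 hF hirr hsq htop h0 h1
  obtain ⟨K, δ, D, hδ, hδ1, -, H⟩ := Pool.Agent.H4.TQ.int_all hn a2 a1 a3
  refine ⟨K, δ, D, hδ, hδ1, fun N hN => ?_⟩
  obtain ⟨E, hE, HE⟩ := H N hN
  refine ⟨E, hE, fun a ha haE x y hxy => ?_⟩
  have h3 : ev3 a x y (F3 m F) = 0 := by
    rw [ev3_f3]
    simpa [MvPolynomial.aeval_eq_eval] using hxy
  have h4 := HE a ha haE x y h3
  refine ⟨?_, fun h0 j hj => ?_⟩
  · obtain ⟨r1, r2, g1, g2, hr, k1, k2⟩ := h4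
    refine ⟨r1, r2, g1, g2, ?_, k1, k2⟩
    rw [ev3_f3] at hr
    simp only [aeval_z] at hr ⊢
    exact hr
  · have h5 := sol_common (F3 m F) a1.H.tot a1.H.deg (fun ρ1 ρ2 hρ => h0 ρ1 ρ2 ?_) a x y
      (by obtain ⟨r1, r2, -, -, q⟩ := h4; exact ⟨r1, r2, q⟩)
    · rw [ev3_f3] at h5
      simp only [aeval_z] at h5
      have h8 : ∀ j, MvPolynomial.eval₂ (Int.castRingHom ℤ[X]) ![(C x : ℤ[X]), C y] (F j) =
          C (MvPolynomial.eval ![x, y] (F j)) := by
        intro j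
        have e0 : (![(C x : ℤ[X]), C y] : Fin 2 → ℤ[X]) = C ∘ ![x, y] := by
          funext i
          fin_cases i <;> rfl
        rw [e0, MvPolynomial.eval, MvPolynomial.coe_eval₂Hom, MvPolynomial.hom_eval₂]
        congr 1
      have h7 := congrArg (fun p : ℤ[X] => p.coeff j) h5
      simp only [finsetSum_coeff, coeff_zero] at h7
      rw [Finset.sum_eq_single j] at h7
      · rw [h8, mul_comm, coeff_C_mul, coeff_X_pow_self, mul_one] at h7
        exact h7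
      · intro i _ hij
        rw [h8, mul_comm, coeff_C_mul, coeff_X_pow, if_neg (Ne.symm hij), mul_zero]
      · intro hj2
        exact absurd (mem_range.2 (Nat.lt_succ_of_le hj)) hj2
    · rw [top_cf, map_sum, ← hρ]
      refine sum_congr rfl fun l hl => ?_
      rw [coeff_f3, finsetSum_coeff, Finset.sum_eq_single m]
      · rw [coeff_C_mul, coeff_X_pow_self, mul_one, map_mul, map_mul, map_pow, map_pow,
          MvPolynomial.aeval_C, MvPolynomial.aeval_X, MvPolynomial.aeval_X]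
        simp
      · intro i _ hij
        rw [coeff_C_mul, coeff_X_pow, if_neg (Ne.symm hij), mul_zero]
      · intro hm2
        exact absurd (mem_range.2 (Nat.lt_succ_self m)) hm2


theorem main (n m : ℕ) (hn : 3 ≤ n) (F : ℕ → MvPolynomial (Fin 2) ℤ)
    (hF : ∀ j ≤ m, (F j).totalDegree ≤ n) (hirr : ¬ Dec (famP ℚ m F))
    (hsq : Squarefree (MvPolynomial.map (Int.castRingHom ℚ)
      (MvPolynomial.homogeneousComponent n (F m))))
    (htop : 2 ≤ m → Dec (topP ℂ n m F) → Dec (topP ℚ n m F)) :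
    ∃ (K δ : ℝ) (D : ℕ), 0 < δ ∧ δ < 1 ∧
      ((∀ X Y : ℂ[X], MvPolynomial.aeval ![X, Y] (topP ℂ n m F) = 0 → X = 0 ∧ Y = 0) →
        (Sols m F D).Finite) ∧ ∀ N : ℕ, 1 ≤ N → ∃ E : Finset ℤ,
      (E.card : ℝ) ≤ K * (N : ℝ) ^ (1 - δ) ∧ ∀ a : ℤ, |a| ≤ N → a ∉ E → ∀ x y : ℤ,
        ∑ j ∈ range (m + 1), a ^ j * MvPolynomial.eval ![x, y] (F j) = 0 →
          (∃ r ∈ Sols m F D, r.1.eval (a : ℚ) = x ∧ r.2.eval (a : ℚ) = y) ∧
          ((∀ u v : ℚ, MvPolynomial.aeval ![u, v] (MvPolynomial.homogeneousComponent n (F m)) = 0 →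
            u = 0 ∧ v = 0) → ∀ j ≤ m, MvPolynomial.eval ![x, y] (F j) = 0) := by
  rcases Nat.eq_zero_or_pos m with rfl | hm
  · refine ⟨0, 1 / 2, 0, by norm_num, by norm_num, fin_part 0 (by omega) hF,
      fun N _ => ⟨∅, by simp, fun a _ _ x y h => ?_⟩⟩
    rw [zero_add, sum_range_one, pow_zero, one_mul] at h
    refine ⟨⟨(C (x : ℚ), C (y : ℚ)), ⟨(natDegree_C _).le, (natDegree_C _).le, ?_⟩,
      by rw [eval_C], by rw [eval_C]⟩, fun _ j hj => ?_⟩
    · rw [zero_add, sum_range_one, pow_zero, one_mul]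
      have e1 : (![C (x : ℚ), C (y : ℚ)] : Fin 2 → ℚ[X]) =
          fun i => (Int.castRingHom ℚ[X]) (![x, y] i) := by
        funext i
        fin_cases i <;> simp
      have e2 : MvPolynomial.eval₂ (Int.castRingHom ℚ[X])
          (fun i => (Int.castRingHom ℚ[X]) (![x, y] i)) (F 0) =
          Int.castRingHom ℚ[X] (MvPolynomial.eval ![x, y] (F 0)) := by
        rw [MvPolynomial.eval, MvPolynomial.coe_eval₂Hom, MvPolynomial.hom_eval₂]
        congr 1
      rw [aeval_z, e1, e2, h, map_zero]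
    · have : j = 0 := by omega
      rw [this, h]
  have hQ : MvPolynomial.homogeneousComponent n (F m) ≠ 0 := by
    intro h0
    rw [h0, map_zero] at hsq
    exact hsq.ne_zero rfl
  obtain ⟨α, β, γ, δ', hdet, hc0, hc1⟩ := good_lin hQ
  obtain ⟨G, hG⟩ : ∃ G : ℕ → MvPolynomial (Fin 2) ℤ, G = fun j => lin α β γ δ' (F j) := ⟨_, rfl⟩
  have hGj : ∀ j, G j = lin α β γ δ' (F j) := fun j => by rw [hG]
  have hev : ∀ (x y : ℤ) (p : MvPolynomial (Fin 2) ℤ), MvPolynomial.eval ![x, y]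
      (lin α β γ δ' p) = MvPolynomial.eval ![α * x + β * y, γ * x + δ' * y] p := by
    intro x y p
    rw [ev_aev, lin_eval, ev_aev]
    simp
  have hdq : (α : ℚ) * δ' - β * γ = 1 := by exact_mod_cast hdet
  obtain ⟨K, δ, D, hδ, hδ1, H⟩ := main1 (m := m) G hn hm
    (fun j hj => by rw [hGj, lin_tot hdet]; exact hF j hj)
    (by rw [hG, famP_lin, dec_lin hdet]; exact hirr)
    (by rw [hGj, lin_homog, lin_map]; exact sqf_lin hdet hsq)
    (by rw [hG, topP_lin, topP_lin, dec_lin hdet, dec_lin hdet]; exact htop)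
    (by
      rw [hGj, lin_homog, hev]
      simpa using hc0)
    (by
      rw [hGj, lin_homog, hev]
      simpa using hc1)
  refine ⟨K, δ, D, hδ, hδ1, fin_part D (by omega) hF, fun N hN => ?_⟩
  obtain ⟨E, hE, HE⟩ := H N hN
  refine ⟨E, hE, fun a ha haE x y hxy => ?_⟩
  have ex : α * (δ' * x - β * y) + β * (-γ * x + α * y) = x := by
    linear_combination x * hdet
  have ey : γ * (δ' * x - β * y) + δ' * (-γ * x + α * y) = y := by
    linear_combination y * hdet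
  have hev2 : ∀ p : MvPolynomial (Fin 2) ℤ, MvPolynomial.eval ![δ' * x - β * y, -γ * x + α * y]
      (lin α β γ δ' p) = MvPolynomial.eval ![x, y] p := by
    intro p
    rw [hev, ex, ey]
  obtain ⟨⟨r1, r2, g1, g2, hr, k1, k2⟩, h5⟩ := HE a ha haE (δ' * x - β * y) (-γ * x + α * y) (by
    rw [← hxy]
    refine sum_congr rfl fun j _ => ?_
    rw [hGj, hev2])
  have hdeg : ∀ (u v : ℤ), ((u : ℚ[X]) * r1 + (v : ℚ[X]) * r2).natDegree ≤ D := by
    intro u v
    refine natDegree_add_le_of_degree_le ?_ ?_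
    · refine natDegree_mul_le.trans ?_
      rw [natDegree_intCast, zero_add]
      exact g1
    · refine natDegree_mul_le.trans ?_
      rw [natDegree_intCast, zero_add]
      exact g2
  refine ⟨⟨((α : ℚ[X]) * r1 + (β : ℚ[X]) * r2, (γ : ℚ[X]) * r1 + (δ' : ℚ[X]) * r2),
    ⟨hdeg _ _, hdeg _ _, ?_⟩, ?_, ?_⟩, fun hno j hj => ?_⟩
  · rw [← hr]
    refine sum_congr rfl fun j _ => ?_
    rw [hGj, lin_eval]
  · rw [eval_add, eval_mul, eval_mul, eval_intCast, eval_intCast, k1, k2]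
    have := congrArg (fun z : ℤ => (z : ℚ)) ex
    push_cast at this ⊢
    linarith
  · rw [eval_add, eval_mul, eval_mul, eval_intCast, eval_intCast, k1, k2]
    have := congrArg (fun z : ℤ => (z : ℚ)) ey
    push_cast at this ⊢
    linarith
  · have h6 := h5 (fun u v huv => by
      rw [hGj, lin_homog, lin_eval] at huv
      obtain ⟨g1, g2⟩ := hno _ _ huv
      constructor
      · linear_combination (δ' : ℚ) * g1 - (β : ℚ) * g2 - u * hdq
      · linear_combination (α : ℚ) * g2 - (γ : ℚ) * g1 - v * hdq) j hj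
    rw [hGj, hev2] at h6
    exact h6

end Pool.Agent.H4.TQ
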