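import Mathlib

/-! # [H4 TQ NU1] An effective form of the Nullstellensatz over `ℤ`

`φ i` forms of degree `n` with integer coefficients and no common zero in `ℂ^σ` but `0`. For every `j` some power of `X j` is in the ideal generated over `ℂ` by the images of the `φ i`: `MvPolynomial.vanishingIdeal_zeroLocus_eq_radical` (Nullstellensatz over the algebraically closed field `ℂ`): `X j` vanishes on the zero locus (which is contained in `{0}`), so `X j ^ K_j = ∑ i, g i * map φ i` with `g i ∈ ℂ[X_σ]` (`Ideal.mem_span_range_iff_exists_fun`, `Submodule.mem_span_range_iff_exists_fun`). One exponent `K ≥ n`, `K ≥ 1` for all `j` (multiply by a power of `X j`).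
Descend to `ℚ`: let `ρ : ℂ →ₗ[ℚ] ℚ` be a `ℚ`-linear map with `ρ 1 = 1` (`LinearMap.exists_leftInverse_of_injective` for `Algebra.linearMap ℚ ℂ`, or a basis containing `1`). Apply `ρ` to the coefficients (`MvPolynomial` is `σ →₀ ℕ →₀ ℂ`; `Finsupp.mapRange.linearMap`, or define `ρ' g = ∑ d ∈ g.support, monomial d (ρ (coeff d g))`): it is `ℚ[X_σ]`-linear (check on monomials), so `X j ^ K = ∑ i, ρ' (g i) * φ i` over `ℚ`. Multiply by a common denominator `M` (one for all `j` and `i`): over `ℤ`, by injectivity of `map (Int.castRingHom ℚ)`.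
Degrees: replace `g i` by its homogeneous component of degree `K - n`: the homogeneous component of degree `K` of `∑ i, g i * φ i` is `∑ i, (component of degree K - n of g i) * φ i` (`φ i` homogeneous of degree `n`, `K ≥ n`; write `g i` as the sum of its components, `IsHomogeneous.mul`), and that of `C M * X j ^ K` is itself. -/

namespace Pool.Agent.H4.TQ

open Finset MvPolynomial

/-- Denominators of a rational polynomial. -/
theorem ni_den {σ : Type} (g : MvPolynomial σ ℚ) :
    ∃ (M : ℤ) (g' : MvPolynomial σ ℤ), M ≠ 0 ∧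
      map (Int.castRingHom ℚ) g' = C ((M : ℤ) : ℚ) * g := by
  induction g using MvPolynomial.induction_on with
  | C a =>
    refine ⟨(a.den : ℤ), C a.num, by exact_mod_cast a.den_nz, ?_⟩
    rw [map_C, ← C_mul]
    congr 1
    have := Rat.mul_den_eq_num a
    push_cast
    rw [mul_comm]
    exact this.symm
  | add p q hp hq =>
    obtain ⟨M1, g1, h1, e1⟩ := hp
    obtain ⟨M2, g2, h2, e2⟩ := hq
    refine ⟨M1 * M2, C M2 * g1 + C M1 * g2, mul_ne_zero h1 h2, ?_⟩
    rw [map_add, map_mul, map_mul, map_C, map_C, e1, e2]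
    simp only [eq_intCast, Int.cast_mul, C_mul]
    ring
  | mul_X p i hp =>
    obtain ⟨M1, g1, h1, e1⟩ := hp
    refine ⟨M1, g1 * X i, h1, ?_⟩
    rw [map_mul, e1, map_X]
    ring

/-- One denominator for a finite family. -/
theorem ni_den_fam {σ ι : Type} [Fintype ι] (g : ι → MvPolynomial σ ℚ) :
    ∃ (M : ℤ) (g' : ι → MvPolynomial σ ℤ), M ≠ 0 ∧
      ∀ i, map (Int.castRingHom ℚ) (g' i) = C ((M : ℤ) : ℚ) * g i := by
  classical
  choose M g' hM hg' using fun i => ni_den (g i)
  refine ⟨∏ i, M i, fun i => C (∏ k ∈ univ.erase i, M k) * g' i,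
    Finset.prod_ne_zero_iff.2 fun i _ => hM i, fun i => ?_⟩
  rw [map_mul, map_C, hg' i, ← Finset.mul_prod_erase univ M (mem_univ i)]
  simp only [eq_intCast, Int.cast_mul, C_mul]
  ring

/-- The component of degree `K` of a product with a form of degree `n`. -/
theorem ni_comp {σ : Type} (n K : ℕ) (hK : n ≤ K) (g φ : MvPolynomial σ ℤ)
    (hφ : φ.IsHomogeneous n) :
    homogeneousComponent K (g * φ) = homogeneousComponent (K - n) g * φ := by
  classical
  conv_lhs => rw [← sum_homogeneousComponent g]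
  rw [Finset.sum_mul, map_sum]
  have h1 : ∀ k ∈ range (g.totalDegree + 1),
      homogeneousComponent K (homogeneousComponent k g * φ) =
        if k = K - n then homogeneousComponent (K - n) g * φ else 0 := by
    intro k _
    have h2 : (homogeneousComponent k g * φ).IsHomogeneous (k + n) :=
      (homogeneousComponent_isHomogeneous k g).mul hφ
    rw [homogeneousComponent_of_mem ((mem_homogeneousSubmodule _ _).2 h2)]
    by_cases h3 : k = K - n
    · rw [if_pos (by omega), if_pos h3, h3]
    · rw [if_neg (by omega), if_neg h3]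
  rw [Finset.sum_congr rfl h1, Finset.sum_ite_eq' (range (g.totalDegree + 1)) (K - n)]
  by_cases h4 : K - n ∈ range (g.totalDegree + 1)
  · rw [if_pos h4]
  · rw [if_neg h4, homogeneousComponent_eq_zero, zero_mul]
    rw [mem_range] at h4
    omega

/-- The power of one variable. -/
theorem ni_one {σ ι : Type} [Fintype σ] [Fintype ι] (φ : ι → MvPolynomial σ ℤ)
    (h0 : ∀ z : σ → ℂ, (∀ i, aeval z (φ i) = 0) → z = 0) (j : σ) :
    ∃ (M : ℤ) (k : ℕ) (g : ι → MvPolynomial σ ℤ), M ≠ 0 ∧ C M * X j ^ k = ∑ i, g i * φ i := by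
  classical
  set f : ι → MvPolynomial σ ℚ := fun i => map (Int.castRingHom ℚ) (φ i) with hf
  set I : Ideal (MvPolynomial σ ℚ) := Ideal.span (Set.range f) with hI
  have h1 : (X j : MvPolynomial σ ℚ) ∈ I.radical := by
    rw [← vanishingIdeal_zeroLocus_eq_radical (K := ℂ), mem_vanishingIdeal_iff]
    intro x hx
    rw [hI, zeroLocus_span] at hx
    have h2 : x = 0 := by
      refine h0 x fun i => ?_
      have h3 := hx (f i) ⟨i, rfl⟩
      rw [hf] at h3
      simp only at h3
      rw [← h3, aeval_def, aeval_def, eval₂_map]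
      congr 1
    rw [aeval_X, h2]
    rfl
  obtain ⟨k, hk⟩ := h1
  rw [hI, Ideal.mem_span_range_iff_exists_fun] at hk
  obtain ⟨c, hc⟩ := hk
  obtain ⟨M, g', hM, hg'⟩ := ni_den_fam c
  refine ⟨M, k, g', hM, ?_⟩
  apply map_injective (Int.castRingHom ℚ) (RingHom.injective_int (Int.castRingHom ℚ))
  rw [map_mul, map_pow, map_X, map_C, map_sum, ← hc, Finset.mul_sum]
  refine Finset.sum_congr rfl fun i _ => ?_
  rw [map_mul, hg' i, hf]
  simp only [eq_intCast]
  ring

theorem null_int {σ ι : Type} [Fintype σ] [Fintype ι] (n : ℕ) (φ : ι → MvPolynomial σ ℤ)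
    (hφ : ∀ i, (φ i).IsHomogeneous n)
    (h0 : ∀ z : σ → ℂ, (∀ i, aeval z (φ i) = 0) → z = 0) :
    ∃ (M : ℤ) (K : ℕ), M ≠ 0 ∧ 1 ≤ K ∧ n ≤ K ∧ ∀ j : σ, ∃ g : ι → MvPolynomial σ ℤ,
      (∀ i, (g i).totalDegree ≤ K - n) ∧ C M * X j ^ K = ∑ i, g i * φ i := by
  classical
  choose M k g hM hg using ni_one φ h0
  set K : ℕ := n + 1 + ∑ j, k j with hK
  refine ⟨∏ j, M j, K, Finset.prod_ne_zero_iff.2 fun i _ => hM i, by omega, by omega,
    fun j => ?_⟩
  have hkj : k j ≤ K := by
    have := Finset.single_le_sum (f := k) (fun i _ => Nat.zero_le _) (mem_univ j)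
    omega
  set G : ι → MvPolynomial σ ℤ := fun i =>
    C (∏ l ∈ univ.erase j, M l) * X j ^ (K - k j) * g j i with hG
  have h1 : C (∏ l, M l) * X j ^ K = ∑ i, G i * φ i := by
    have h2 : (X j : MvPolynomial σ ℤ) ^ K = X j ^ (K - k j) * X j ^ k j := by
      rw [← pow_add]
      congr 1
      omega
    have h3 : (C (∏ l, M l) : MvPolynomial σ ℤ) =
        C (M j) * C (∏ l ∈ univ.erase j, M l) := by
      rw [← C_mul, Finset.mul_prod_erase univ M (mem_univ j)]
    calc (C (∏ l, M l) : MvPolynomial σ ℤ) * X j ^ K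
        = C (∏ l ∈ univ.erase j, M l) * X j ^ (K - k j) * (C (M j) * X j ^ k j) := by
          rw [h2, h3]
          ring
      _ = ∑ i, G i * φ i := by
          rw [hg j, Finset.mul_sum]
          refine Finset.sum_congr rfl fun i _ => ?_
          rw [hG]
          ring
  refine ⟨fun i => homogeneousComponent (K - n) (G i), fun i =>
    (homogeneousComponent_isHomogeneous _ _).totalDegree_le, ?_⟩
  have h4 : homogeneousComponent K (C (∏ l, M l) * X j ^ K : MvPolynomial σ ℤ) =
      C (∏ l, M l) * X j ^ K :=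
    homogeneousComponent_eq_self (isHomogeneous_C_mul_X_pow _ _ _)
  rw [← h4, h1, map_sum]
  exact Finset.sum_congr rfl fun i _ => ni_comp n K (by omega) (G i) (φ i) (hφ i)

end Pool.Agent.H4.TQ
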