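import Pool.Agent.H4.TP.WIN

/-! # [H4 TQ WIN] Points in a window, polynomial solutions of bounded degree (copies of
`Pool/Agent/H37/TE/Spq.lean`, `Spp.lean`, `Win.lean`) -/

namespace Pool.Agent.H4.TQ

open Finset Polynomial Pool.Agent.H37.TE Pool.Agent.H98.TE Pool.Agent.H4.TP

theorem space_proj (D κ : ℕ) : ∃ c : ℕ, ∀ U P : ℕ, Cpl U P → ∀ R R' : ℚ[X][X], R ≠ 0 → R' ≠ 0 →
    BD D D R → BD D D R' → ∀ F : ℤ[X][X][X], TD D D D F →
    ∀ S : Finset ℤ, (∀ u ∈ S, 0 ≤ u ∧ u ≤ U ∧ ∃ x y : ℤ, |x| ≤ ((U ^ κ : ℕ) : ℤ) ∧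
      |y| ≤ ((U ^ κ : ℕ) : ℤ) ∧ evalEval (u : ℚ) (x : ℚ) R = 0 ∧
      evalEval (u : ℚ) (y : ℚ) R' = 0 ∧ ev3 u x y F = 0 ∧
      ¬ ∃ r1 r2 : ℚ[X], r1.natDegree ≤ D ∧ r2.natDegree ≤ D ∧ ev3 X r1 r2 F = 0 ∧
        r1.eval (u : ℚ) = x ∧ r2.eval (u : ℚ) = y) →
      S.card ≤ c * P := by
  classical
  obtain ⟨c1, hc1⟩ := plane_points D κ
  refine ⟨c1 + c1 + (2 * D * (2 * D)) * (D + D * D + D * D), ?_⟩
  intro U P hUP R R' hR hR' bR bR' F hF S hS
  obtain ⟨L, hLc, hLd, hL⟩ := hc1 U P hUP R hR bR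
  obtain ⟨L', hLc', hLd', hL'⟩ := hc1 U P hUP R' hR' bR'
  have hP : 1 ≤ P := by
    rcases Nat.eq_zero_or_pos P with h | h
    · exfalso
      have h1 := hUP.1
      have h2 := hUP.2
      rw [h] at h2
      have h3 : 1 ≤ U ^ 5 := Nat.one_le_pow _ _ h1
      simp at h2
      omega
    · exact h
  choose! hu0 hu1 x y hx hy hRx hRy hFxy hno using hS
  -- the three sets
  set S1 : Finset ℤ := S.filter (fun u : ℤ => ∀ r ∈ L, r.eval (u : ℚ) ≠ ((x u : ℤ) : ℚ)) with hS1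
  set S2 : Finset ℤ := S.filter (fun u : ℤ => ∀ r ∈ L', r.eval (u : ℚ) ≠ ((y u : ℤ) : ℚ)) with hS2
  set S3 : Finset ℤ := (L ×ˢ L').biUnion (fun p => S.filter (fun u : ℤ =>
    p.1.eval (u : ℚ) = ((x u : ℤ) : ℚ) ∧ p.2.eval (u : ℚ) = ((y u : ℤ) : ℚ))) with hS3
  have hcov : S ⊆ (S1 ∪ S2) ∪ S3 := by
    intro u hu
    by_cases a1 : ∀ r ∈ L, r.eval (u : ℚ) ≠ ((x u : ℤ) : ℚ)
    · exact Finset.mem_union_left _ (Finset.mem_union_left _ (Finset.mem_filter.mpr ⟨hu, a1⟩))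
    by_cases a2 : ∀ r ∈ L', r.eval (u : ℚ) ≠ ((y u : ℤ) : ℚ)
    · exact Finset.mem_union_left _ (Finset.mem_union_right _ (Finset.mem_filter.mpr ⟨hu, a2⟩))
    push Not at a1 a2
    obtain ⟨r1, hr1, e1⟩ := a1
    obtain ⟨r2, hr2, e2⟩ := a2
    apply Finset.mem_union_right
    rw [hS3, Finset.mem_biUnion]
    exact ⟨(r1, r2), Finset.mem_product.mpr ⟨hr1, hr2⟩, Finset.mem_filter.mpr ⟨hu, e1, e2⟩⟩
  have c1' : S1.card ≤ c1 * P := by
    have h := hL (S1.image (fun u => (u, x u))) ?_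
    · have e : ((S1.image (fun u => (u, x u))).image Prod.fst) = S1 := by
        rw [Finset.image_image]
        ext u
        simp
      rw [e] at h
      exact h
    · intro t ht
      obtain ⟨u, hu, rfl⟩ := Finset.mem_image.mp ht
      have hu' := Finset.mem_filter.mp hu
      exact ⟨hu0 u hu'.1, hu1 u hu'.1, hx u hu'.1, hRx u hu'.1, hu'.2⟩
  have c2' : S2.card ≤ c1 * P := by
    have h := hL' (S2.image (fun u => (u, y u))) ?_
    · have e : ((S2.image (fun u => (u, y u))).image Prod.fst) = S2 := by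
        rw [Finset.image_image]
        ext u
        simp
      rw [e] at h
      exact h
    · intro t ht
      obtain ⟨u, hu, rfl⟩ := Finset.mem_image.mp ht
      have hu' := Finset.mem_filter.mp hu
      exact ⟨hu0 u hu'.1, hu1 u hu'.1, hy u hu'.1, hRy u hu'.1, hu'.2⟩
  have c3' : S3.card ≤ (2 * D * (2 * D)) * (D + D * D + D * D) := by
    calc S3.card ≤ ∑ p ∈ L ×ˢ L', (S.filter (fun u : ℤ =>
          p.1.eval (u : ℚ) = ((x u : ℤ) : ℚ) ∧ p.2.eval (u : ℚ) = ((y u : ℤ) : ℚ))).card :=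
          Finset.card_biUnion_le
      _ ≤ ∑ p ∈ L ×ˢ L', (D + D * D + D * D) := by
          apply Finset.sum_le_sum
          intro p hp
          have hp' := Finset.mem_product.mp hp
          rcases Finset.eq_empty_or_nonempty (S.filter (fun u : ℤ =>
            p.1.eval (u : ℚ) = ((x u : ℤ) : ℚ) ∧ p.2.eval (u : ℚ) = ((y u : ℤ) : ℚ))) with h | h
          · rw [h, Finset.card_empty]
            exact Nat.zero_le _
          · obtain ⟨u0, hu0'⟩ := h
            have hu0'' := Finset.mem_filter.mp hu0'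
            have hq : ev3 X p.1 p.2 F ≠ 0 := by
              intro h0
              exact hno u0 hu0''.1 ⟨p.1, p.2, hLd _ hp'.1, hLd' _ hp'.2, h0, hu0''.2.1, hu0''.2.2⟩
            refine card_roots_le_aux (ev3 X p.1 p.2 F) hq _
              (ev3_deg hF p.1 p.2 (hLd _ hp'.1) (hLd' _ hp'.2)) _ ?_
            intro u hu
            have hu' := Finset.mem_filter.mp hu
            have e1 := ev3_hom (evalRingHom (u : ℚ)) X p.1 p.2 F
            simp only [coe_evalRingHom, eval_X] at e1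
            rw [e1, hu'.2.1, hu'.2.2]
            have e2 := ev3_hom (Int.castRingHom ℚ) u (x u) (y u) F
            simp only [eq_intCast] at e2
            rw [← e2, hFxy u hu'.1]
            simp
      _ = (L.card * L'.card) * (D + D * D + D * D) := by
          rw [Finset.sum_const, Finset.card_product, smul_eq_mul]
      _ ≤ (2 * D * (2 * D)) * (D + D * D + D * D) :=
          Nat.mul_le_mul_right _ (Nat.mul_le_mul hLc hLc')
  have hc : S.card ≤ S1.card + S2.card + S3.card := by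
    calc S.card ≤ ((S1 ∪ S2) ∪ S3).card := Finset.card_le_card hcov
      _ ≤ (S1 ∪ S2).card + S3.card := Finset.card_union_le _ _
      _ ≤ S1.card + S2.card + S3.card := Nat.add_le_add_right (Finset.card_union_le _ _) _
  calc S.card ≤ S1.card + S2.card + S3.card := hc
    _ ≤ c1 * P + c1 * P + (2 * D * (2 * D)) * (D + D * D + D * D) * 1 := by
        rw [Nat.mul_one]
        exact Nat.add_le_add (Nat.add_le_add c1' c2') c3'
    _ ≤ c1 * P + c1 * P + (2 * D * (2 * D)) * (D + D * D + D * D) * P :=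
        Nat.add_le_add_left (Nat.mul_le_mul_left _ hP) _
    _ = (c1 + c1 + (2 * D * (2 * D)) * (D + D * D + D * D)) * P := by ring



private theorem spp_qP (R : ℤ[X][X]) (u x : ℤ) :
    evalEval (u : ℚ) (x : ℚ) (qP R) = ((evalEval u x R : ℤ) : ℚ) := by
  have h1 := map_mapRingHom_evalEval (Int.castRingHom ℚ) R u x
  simpa [qP] using h1

private theorem spp_inj : Function.Injective (mapRingHom (Int.castRingHom ℚ)) :=
  map_injective _ (RingHom.injective_int _)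

private theorem spp_bd {d e D : ℕ} (R : ℤ[X][X]) (h : BD d e R) (hd : d ≤ D) (he : e ≤ D) :
    BD D D (qP R) := by
  refine ⟨?_, fun j => ?_⟩
  · exact (natDegree_map_le).trans (h.1.trans he)
  · unfold qP
    rw [coeff_map, coe_mapRingHom]
    exact (natDegree_map_le).trans ((h.2 j).trans hd)

theorem space_points (D κ : ℕ) : ∃ c : ℕ, ∀ U P : ℕ, Cpl U P → ∀ F G : ℤ[X][X][X],
    TD D D D F → TD D D D G →
    Irreducible (F.map (mapRingHom (algebraMap ℤ[X] (FractionRing ℤ[X])))) →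
    1 ≤ F.natDegree → 1 ≤ (Bivariate.swap F).natDegree → G ≠ 0 → G.natDegree < F.natDegree →
    ∀ S : Finset ℤ, (∀ u ∈ S, 0 ≤ u ∧ u ≤ U ∧ ∃ x y : ℤ, |x| ≤ ((U ^ κ : ℕ) : ℤ) ∧
      |y| ≤ ((U ^ κ : ℕ) : ℤ) ∧ ev3 u x y F = 0 ∧ ev3 u x y G = 0 ∧
      ¬ ∃ r1 r2 : ℚ[X], r1.natDegree ≤ 2 * D * D + D ∧ r2.natDegree ≤ 2 * D * D + D ∧
        ev3 X r1 r2 F = 0 ∧ r1.eval (u : ℚ) = x ∧ r2.eval (u : ℚ) = y) →
      S.card ≤ c * P := by
  obtain ⟨c, hc⟩ := space_proj (2 * D * D + D) κ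
  refine ⟨c, ?_⟩
  intro U P hUP F G hF hG hirr h1 h2 hG0 hlt S hS
  obtain ⟨R, R', hR, hR', bR, bR', hz⟩ := elim3 hF hG hirr h1 h2 hG0 hlt
  have hne : ∀ Q : ℤ[X][X], Q ≠ 0 → qP Q ≠ 0 := by
    intro Q hQ h
    apply hQ
    unfold qP at h
    exact (Polynomial.map_eq_zero_iff spp_inj).1 h
  refine hc U P hUP (qP R) (qP R') (hne R hR) (hne R' hR')
    (spp_bd R bR (by omega) (by omega)) (spp_bd R' bR' (by omega) (by omega)) F ?_ S ?_
  · refine ⟨hF.1.trans (by omega), fun k => ⟨(hF.2 k).1.trans (by omega), fun j => ?_⟩⟩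
    exact ((hF.2 k).2 j).trans (by omega)
  · intro u hu
    obtain ⟨h3, h4, x, y, h5, h6, h7, h8, h9⟩ := hS u hu
    obtain ⟨h10, h11⟩ := hz u x y h7 h8
    refine ⟨h3, h4, x, y, h5, h6, ?_, ?_, h7, h9⟩
    · rw [spp_qP, h10, Int.cast_zero]
    · rw [spp_qP, h11, Int.cast_zero]



theorem window_points (n D κ : ℕ) (hn : 1 ≤ n) (F : ℤ[X][X][X])
    (hdeg : ∀ a b, n < a + b → (F.coeff b).coeff a = 0) (hlead : (F.coeff n).coeff 0 ≠ 0)
    (hlead' : (F.coeff 0).coeff n ≠ 0) (hirr : IrrT F) :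
    ∃ c D' : ℕ, ∀ A : ℤ, ∀ U P : ℕ, Cpl U P → ∀ G : ℤ[X][X][X], TD D D D G → G ≠ 0 →
      G.natDegree < n → ∀ S : Finset ℤ, (∀ u ∈ S, 0 ≤ u ∧ u ≤ U ∧ ∃ x y : ℤ,
        |x| ≤ ((U ^ κ : ℕ) : ℤ) ∧ |y| ≤ ((U ^ κ : ℕ) : ℤ) ∧ ev3 (A + u) x y F = 0 ∧
        ev3 u x y G = 0 ∧ ¬ ∃ r1 r2 : ℚ[X], r1.natDegree ≤ D' ∧ r2.natDegree ≤ D' ∧
          ev3 X r1 r2 F = 0 ∧ r1.eval (((A + u : ℤ)) : ℚ) = x ∧ r2.eval (((A + u : ℤ)) : ℚ) = y) → S.card ≤ c * P := by
  -- a bound for the degrees of `F`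
  obtain ⟨m, hm⟩ : ∃ m, ∀ a b, ((F.coeff b).coeff a).natDegree ≤ m := by
    refine ⟨∑ b ∈ range (n + 1), ∑ a ∈ range (n + 1), ((F.coeff b).coeff a).natDegree, ?_⟩
    intro a b
    by_cases hab : n < a + b
    · rw [hdeg a b hab, natDegree_zero]
      exact Nat.zero_le _
    · have h1 : ((F.coeff b).coeff a).natDegree ≤
          ∑ a ∈ range (n + 1), ((F.coeff b).coeff a).natDegree :=
        Finset.single_le_sum (f := fun a => ((F.coeff b).coeff a).natDegree)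
          (fun _ _ => Nat.zero_le _) (mem_range.2 (by omega))
      refine h1.trans ?_
      exact Finset.single_le_sum
        (f := fun b => ∑ a ∈ range (n + 1), ((F.coeff b).coeff a).natDegree)
        (fun _ _ => Nat.zero_le _) (mem_range.2 (by omega))
  obtain ⟨c, hc⟩ := space_points (D + n + m) κ
  refine ⟨c, 2 * (D + n + m) * (D + n + m) + (D + n + m), ?_⟩
  intro A U P hUP G hG hG0 hGn S hS
  have hdeg' : ∀ a b, n < a + b → ((sh A F).coeff b).coeff a = 0 := by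
    intro a b hab
    rw [sh_coeff, hdeg a b hab, zero_comp]
  have hlead1 : ((sh A F).coeff n).coeff 0 ≠ 0 := by
    rw [sh_coeff, Ne, shift_comp]
    exact hlead
  have hlead2 : ((sh A F).coeff 0).coeff n ≠ 0 := by
    rw [sh_coeff, Ne, shift_comp]
    exact hlead'
  have h2 : (sh A F).natDegree = n := nat_of hdeg' hlead1
  have h3 : 1 ≤ (Bivariate.swap (sh A F)).natDegree := by
    have h4 : n ≤ (Bivariate.swap (sh A F)).natDegree := by
      refine le_natDegree_of_ne_zero ?_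
      intro h
      apply hlead2
      rw [← swap_coeff, h, coeff_zero]
    omega
  have h1 := irr_frac (irrT_sh hirr A) (by omega)
  have hTD : TD (D + n + m) (D + n + m) (D + n + m) (sh A F) := by
    refine ⟨by rw [h2]; omega, fun b => ⟨?_, fun a => ?_⟩⟩
    · rw [natDegree_le_iff_coeff_eq_zero]
      intro a ha
      exact hdeg' a b (by omega)
    · rw [sh_coeff, shift_natDegree]
      have := hm a b
      omega
  have hTG : TD (D + n + m) (D + n + m) (D + n + m) G := by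
    refine ⟨hG.1.trans (by omega), fun b => ⟨(hG.2 b).1.trans (by omega), fun a => ?_⟩⟩
    exact ((hG.2 b).2 a).trans (by omega)
  refine hc U P hUP (sh A F) G hTD hTG h1 (by omega) h3 hG0 (by omega) S ?_
  intro u hu
  obtain ⟨u0, u1, x, y, hx, hy, hF0, hG00, hno⟩ := hS u hu
  refine ⟨u0, u1, x, y, hx, hy, ?_, hG00, ?_⟩
  · rw [ev3_sh, add_comm]
    exact hF0
  · rintro ⟨r1, r2, g1, g2, hr, e1, e2⟩
    apply hno
    have h4 : ∀ r : ℚ[X], (r.comp (X - C (A : ℚ))).eval (((A + u : ℤ)) : ℚ) = r.eval (u : ℚ) := by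
      intro r
      rw [eval_comp]
      congr 1
      simp
    have h9 : ∀ r : ℚ[X], (r.comp (X - C (A : ℚ))).natDegree = r.natDegree := by
      intro r
      rw [natDegree_comp, natDegree_X_sub_C, mul_one]
    refine ⟨r1.comp (X - C (A : ℚ)), r2.comp (X - C (A : ℚ)), by rw [h9]; exact g1,
      by rw [h9]; exact g2, ?_, ?_, ?_⟩
    · rw [ev3_sh] at hr
      have h5 := congrArg (compRingHom (X - C (A : ℚ))) hr
      rw [ev3_hom, map_zero] at h5
      have h6 : compRingHom (X - C (A : ℚ)) (X + ((A : ℤ) : ℚ[X])) = X := by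
        rw [map_add, map_intCast, coe_compRingHom_apply, X_comp]
        simp
      rw [h6] at h5
      exact h5
    · rw [h4, e1]
    · rw [h4, e2]

end Pool.Agent.H4.TQ
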